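import Mathlib
import Pool.Agent.Helper15.GPCover

set_option autoImplicit false

namespace Pool.Agent.Results.MP_af7016_co.IntegerRatio

open Filter

/-- `S` is a `k`-term geometric progression of positive integers with integer ratio at least two. -/
def IsGP (k : ℕ) (S : Finset ℕ) : Prop :=
  ∃ a r : ℕ, 1 ≤ a ∧ 2 ≤ r ∧ S = (Finset.range k).image (fun i => a * r ^ i)

/-- `m_k(N)`: the smallest number of `k`-term geometric progressions whose union contains `{1, …, N}`. -/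
noncomputable def coverNumber (k N : ℕ) : ℕ :=
  sInf {c : ℕ | ∃ F : Finset (Finset ℕ), (∀ S ∈ F, IsGP k S) ∧
    (∀ x, 1 ≤ x → x ≤ N → ∃ S ∈ F, x ∈ S) ∧ F.card = c}

/-- The lower limit of `m_k(N)/N` as `N` tends to infinity. -/
noncomputable def lowerGamma (k : ℕ) : ℝ := liminf (fun N : ℕ => (coverNumber k N : ℝ) / (N : ℝ)) atTop

/-- The upper limit of `m_k(N)/N` as `N` tends to infinity. -/
noncomputable def upperGamma (k : ℕ) : ℝ := limsup (fun N : ℕ => (coverNumber k N : ℝ) / (N : ℝ)) atTop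

theorem upp (k N : ℕ) (hk : 1 ≤ k) : (coverNumber k N : ℝ) ≤ (1 / 2 + 1 / 2 ^ k) * (N : ℝ) + 1 := by
  obtain ⟨F, h1, h2, h3⟩ := Pool.Agent.Helper15.GPCover.upper k N hk
  have h4 : coverNumber k N ≤ F.card := by
    apply Nat.sInf_le
    refine ⟨F, fun S hS => ?_, h2, rfl⟩
    obtain ⟨a, ha, hS2⟩ := h1 S hS
    exact ⟨a, 2, ha, le_refl _, hS2⟩
  have h5 : (coverNumber k N : ℝ) ≤ (F.card : ℝ) := by exact_mod_cast h4
  linarith

theorem low (k N : ℕ) (hk : 1 ≤ k) : N - N / 2 ≤ coverNumber k N := by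
  classical
  have hne : {c : ℕ | ∃ F : Finset (Finset ℕ), (∀ S ∈ F, IsGP k S) ∧
    (∀ x, 1 ≤ x → x ≤ N → ∃ S ∈ F, x ∈ S) ∧ F.card = c}.Nonempty := by
    obtain ⟨F, h1, h2, h3⟩ := Pool.Agent.Helper15.GPCover.upper k N hk
    refine ⟨F.card, F, fun S hS => ?_, h2, rfl⟩
    obtain ⟨a, ha, hS2⟩ := h1 S hS
    exact ⟨a, 2, ha, le_refl _, hS2⟩
  obtain ⟨F, h1, h2, h3⟩ := Nat.sInf_mem hne
  have h4 : coverNumber k N = F.card := h3.symm
  rw [h4]
  have hch : ∀ x : ℕ, ∃ S : Finset ℕ, (N / 2 < x ∧ x ≤ N) → S ∈ F ∧ x ∈ S := by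
    intro x
    by_cases hx : N / 2 < x ∧ x ≤ N
    · obtain ⟨S, hS, hxS⟩ := h2 x (by omega) hx.2
      exact ⟨S, fun _ => ⟨hS, hxS⟩⟩
    · exact ⟨∅, fun h => absurd h hx⟩
  choose g hg using hch
  have hcard : (Finset.Ioc (N / 2) N).card = N - N / 2 := Nat.card_Ioc _ _
  rw [← hcard]
  apply Finset.card_le_card_of_injOn g
  · intro x hx
    exact (hg x (by simpa using hx)).1
  · intro x hx y hy hxy
    have hx' : N / 2 < x ∧ x ≤ N := by simpa using hx
    have hy' : N / 2 < y ∧ y ≤ N := by simpa using hy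
    obtain ⟨hS, hxS⟩ := hg x hx'
    obtain ⟨-, hyS⟩ := hg y hy'
    rw [← hxy] at hyS
    obtain ⟨a, r, ha, hr, hSe⟩ := h1 _ hS
    rw [hSe, Finset.mem_image] at hxS hyS
    obtain ⟨i, -, hi⟩ := hxS
    obtain ⟨j, -, hj⟩ := hyS
    have key : ∀ i j : ℕ, i < j → 2 * (a * r ^ i) ≤ a * r ^ j := by
      intro i j hij
      have h5 : r ^ (i + 1) ≤ r ^ j := Nat.pow_le_pow_right (by omega) hij
      calc 2 * (a * r ^ i) ≤ r * (a * r ^ i) := Nat.mul_le_mul_right _ hr
        _ = a * r ^ (i + 1) := by ring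
        _ ≤ a * r ^ j := Nat.mul_le_mul_left a h5
    rcases lt_trichotomy i j with h | h | h
    · have := key i j h
      omega
    · rw [← hi, ← hj, h]
    · have := key j i h
      omega

/-- With integer ratios, both `lim_{k} liminf_N m_k(N)/N` and `lim_k limsup_N m_k(N)/N` equal `1/2`. -/
theorem result : Tendsto lowerGamma atTop (nhds (1 / 2)) ∧ Tendsto upperGamma atTop (nhds (1 / 2)) := by
  apply Pool.Agent.Helper15.GPCover.limits coverNumber (fun k => 1 / 2 ^ k) _ 1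
  · intro k hk N hN
    have h1 := low k N hk
    have h2 : ((N - N / 2 : ℕ) : ℝ) ≤ (coverNumber k N : ℝ) := by exact_mod_cast h1
    have h3 : (N : ℝ) / 2 ≤ ((N - N / 2 : ℕ) : ℝ) := by
      have : N ≤ 2 * (N - N / 2) := by omega
      have h4 : (N : ℝ) ≤ 2 * ((N - N / 2 : ℕ) : ℝ) := by exact_mod_cast this
      linarith
    have h5 : (0 : ℝ) ≤ 1 / 2 ^ k * (N : ℝ) := by positivity
    show (1 / 2 - 1 / 2 ^ k) * (N : ℝ) ≤ (coverNumber k N : ℝ)
    linarith
  · intro k hk N _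
    exact upp k N hk
  · have := tendsto_pow_atTop_nhds_zero_of_lt_one (r := (1 / 2 : ℝ)) (by norm_num) (by norm_num)
    simpa using this

end Pool.Agent.Results.MP_af7016_co.IntegerRatio
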