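import Mathlib
import Pool.Agent.Helper15.GPCover

set_option autoImplicit false

namespace Pool.Agent.Results.MP_af7016_co.RationalRatio

open Filter

/-- `S` is a `k`-term geometric progression of positive integers, with rational ratio greater than one: the
numbers `a r^i` for `i < k` are all integers and `S` is the set of these numbers. -/
def IsGP (k : ℕ) (S : Finset ℕ) : Prop :=
  ∃ (a : ℕ) (r : ℚ), 1 ≤ a ∧ 1 < r ∧ (∀ i < k, ∃ n : ℕ, (n : ℚ) = a * r ^ i) ∧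
    ∀ n : ℕ, n ∈ S ↔ ∃ i < k, (n : ℚ) = a * r ^ i

/-- `m_k(N)`: the smallest number of `k`-term geometric progressions whose union contains `{1, …, N}`. -/
noncomputable def coverNumber (k N : ℕ) : ℕ :=
  sInf {c : ℕ | ∃ F : Finset (Finset ℕ), (∀ S ∈ F, IsGP k S) ∧
    (∀ x, 1 ≤ x → x ≤ N → ∃ S ∈ F, x ∈ S) ∧ F.card = c}

/-- The lower limit of `m_k(N)/N` as `N` tends to infinity. -/
noncomputable def lowerGamma (k : ℕ) : ℝ := liminf (fun N : ℕ => (coverNumber k N : ℝ) / (N : ℝ)) atTop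

/-- The upper limit of `m_k(N)/N` as `N` tends to infinity. -/
noncomputable def upperGamma (k : ℕ) : ℝ := limsup (fun N : ℕ => (coverNumber k N : ℝ) / (N : ℝ)) atTop

theorem isGP_two (k a : ℕ) (ha : 1 ≤ a) : IsGP k ((Finset.range k).image (fun i => a * 2 ^ i)) := by
  refine ⟨a, 2, ha, by norm_num, fun i _ => ⟨a * 2 ^ i, by push_cast; ring⟩, fun n => ?_⟩
  rw [Finset.mem_image]
  constructor
  · rintro ⟨i, hi, rfl⟩
    exact ⟨i, Finset.mem_range.1 hi, by push_cast; ring⟩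
  · rintro ⟨i, hi, h⟩
    refine ⟨i, Finset.mem_range.2 hi, ?_⟩
    have : ((a * 2 ^ i : ℕ) : ℚ) = (n : ℚ) := by push_cast; exact h.symm
    exact_mod_cast this

theorem upp (k N : ℕ) (hk : 1 ≤ k) : (coverNumber k N : ℝ) ≤ (1 / 2 + 1 / 2 ^ k) * (N : ℝ) + 1 := by
  obtain ⟨F, h1, h2, h3⟩ := Pool.Agent.Helper15.GPCover.upper k N hk
  have h4 : coverNumber k N ≤ F.card := by
    apply Nat.sInf_le
    refine ⟨F, fun S hS => ?_, h2, rfl⟩
    obtain ⟨a, ha, hS2⟩ := h1 S hS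
    rw [hS2]
    exact isGP_two k a ha
  have h5 : (coverNumber k N : ℝ) ≤ (F.card : ℝ) := by exact_mod_cast h4
  linarith

/-- Elements of a progression whose ratio is not an integer are divisible by a high power. -/
theorem div_of_nonint (k : ℕ) (a : ℕ) (r : ℚ) (hr : 1 < r) (hk : 1 ≤ k)
    (hint : ∀ i < k, ∃ n : ℕ, (n : ℚ) = a * r ^ i) (hd : r.den ≠ 1) (i : ℕ) (hi : i < k) (n : ℕ)
    (hn : (n : ℚ) = a * r ^ i) : ∃ m : ℕ, 2 ≤ m ∧ m ^ ((k - 1) / 2) ∣ n := by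
  obtain ⟨M, hM⟩ := hint (k - 1) (by omega)
  have hrpos : 0 < r := by linarith
  obtain ⟨p, hp⟩ : ∃ p : ℕ, (p : ℤ) = r.num := ⟨r.num.toNat, Int.toNat_of_nonneg (Rat.num_pos.2 hrpos).le⟩
  have hq0 : (r.den : ℚ) ≠ 0 := by exact_mod_cast r.den_ne_zero
  have hrp : r = (p : ℚ) / (r.den : ℚ) := by
    have h := Rat.num_div_den r
    rw [← hp] at h
    have h1 : (((p : ℤ) : ℚ) / (r.den : ℚ)) = r := h
    have h2 : ((p : ℤ) : ℚ) = (p : ℚ) := by norm_cast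
    rw [h2] at h1
    exact h1.symm
  have hcop : Nat.Coprime p r.den := by
    have h := r.reduced
    rw [← hp] at h
    simpa using h
  have hpq : ∀ j, (r.den : ℚ) ^ j * r ^ j = (p : ℚ) ^ j := by
    intro j
    rw [← mul_pow]
    congr 1
    nth_rewrite 2 [hrp]
    field_simp
  have hdiv : r.den ^ (k - 1) ∣ a := by
    have h1 : ((r.den ^ (k - 1) * M : ℕ) : ℚ) = ((a * p ^ (k - 1) : ℕ) : ℚ) := by
      push_cast
      rw [hM, ← hpq (k - 1)]
      ring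
    have h2 : r.den ^ (k - 1) * M = a * p ^ (k - 1) := by exact_mod_cast h1
    have h3 : r.den ^ (k - 1) ∣ a * p ^ (k - 1) := ⟨M, h2.symm⟩
    exact (Nat.Coprime.pow _ _ hcop.symm).dvd_of_dvd_mul_right h3
  obtain ⟨c, hc⟩ := hdiv
  have hn2 : n = r.den ^ (k - 1 - i) * (p ^ i * c) := by
    have h1 : ((r.den ^ i * n : ℕ) : ℚ) = ((r.den ^ i * (r.den ^ (k - 1 - i) * (p ^ i * c)) : ℕ) : ℚ) := by
      have h2 : k - 1 = i + (k - 1 - i) := by omega
      have h3 : (a : ℚ) = (r.den : ℚ) ^ i * (r.den : ℚ) ^ (k - 1 - i) * c := by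
        rw [← pow_add, ← h2]
        exact_mod_cast hc
      push_cast
      rw [hn, ← hpq i, h3]
      ring
    have h2 : r.den ^ i * n = r.den ^ i * (r.den ^ (k - 1 - i) * (p ^ i * c)) := by exact_mod_cast h1
    exact Nat.eq_of_mul_eq_mul_left (pow_pos r.den_pos i) h2
  have hq2 : 2 ≤ r.den := by
    have := r.den_pos
    omega
  have hp2 : 2 ≤ p := by
    have h1 : (r.den : ℚ) < p := by
      have h2 : 1 < (p : ℚ) / (r.den : ℚ) := by rw [← hrp]; exact hr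
      have h3 : (0 : ℚ) < r.den := by exact_mod_cast r.den_pos
      rw [lt_div_iff₀ h3] at h2
      linarith
    have h2 : r.den < p := by exact_mod_cast h1
    omega
  by_cases hh : (k - 1) / 2 ≤ i
  · refine ⟨p, hp2, ?_⟩
    rw [hn2]
    exact Dvd.dvd.mul_left (Dvd.dvd.mul_right (pow_dvd_pow p hh) c) _
  · refine ⟨r.den, hq2, ?_⟩
    rw [hn2]
    exact Dvd.dvd.mul_right (pow_dvd_pow _ (by omega)) _

/-- The integers divisible by a high power are rare. -/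
theorem rare (h N : ℕ) (hh : 2 ≤ h) (hN : 1 ≤ N)
    [DecidablePred (fun x : ℕ => ∃ m : ℕ, 2 ≤ m ∧ m ^ h ∣ x)] :
    (((Finset.Ioc 0 N).filter (fun x => ∃ m : ℕ, 2 ≤ m ∧ m ^ h ∣ x)).card : ℝ) ≤ 4 / 2 ^ h * (N : ℝ) := by
  classical
  have h1 : ((Finset.Ioc 0 N).filter (fun x => ∃ m : ℕ, 2 ≤ m ∧ m ^ h ∣ x)) ⊆
      (Finset.Ioc 1 N).biUnion (fun m => (Finset.Ioc 0 N).filter (fun x => m ^ h ∣ x)) := by
    intro x hx
    rw [Finset.mem_filter, Finset.mem_Ioc] at hx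
    obtain ⟨⟨hx0, hxN⟩, m, hm, hmx⟩ := hx
    rw [Finset.mem_biUnion]
    refine ⟨m, ?_, ?_⟩
    · rw [Finset.mem_Ioc]
      refine ⟨by omega, ?_⟩
      calc m ≤ m ^ h := Nat.le_self_pow (by omega) m
        _ ≤ x := Nat.le_of_dvd hx0 hmx
        _ ≤ N := hxN
    · rw [Finset.mem_filter, Finset.mem_Ioc]
      exact ⟨⟨hx0, hxN⟩, hmx⟩
  have h2 : ((Finset.Ioc 0 N).filter (fun x => ∃ m : ℕ, 2 ≤ m ∧ m ^ h ∣ x)).card ≤
      ∑ m ∈ Finset.Ioc 1 N, N / m ^ h := by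
    refine (Finset.card_le_card h1).trans (Finset.card_biUnion_le.trans ?_)
    refine Finset.sum_le_sum (fun m _ => ?_)
    rw [Nat.Ioc_filter_dvd_card_eq_div]
  have h3 : (((Finset.Ioc 0 N).filter (fun x => ∃ m : ℕ, 2 ≤ m ∧ m ^ h ∣ x)).card : ℝ) ≤
      ∑ m ∈ Finset.Ioc 1 N, (N : ℝ) * (4 / 2 ^ h) * ((m : ℝ) ^ 2)⁻¹ := by
    have h4 : (((Finset.Ioc 0 N).filter (fun x => ∃ m : ℕ, 2 ≤ m ∧ m ^ h ∣ x)).card : ℝ) ≤
        ∑ m ∈ Finset.Ioc 1 N, ((N / m ^ h : ℕ) : ℝ) := by exact_mod_cast h2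
    refine h4.trans (Finset.sum_le_sum (fun m hm => ?_))
    rw [Finset.mem_Ioc] at hm
    have hm2 : (2 : ℝ) ≤ m := by exact_mod_cast hm.1
    have h5 : ((N / m ^ h : ℕ) : ℝ) ≤ (N : ℝ) / (m : ℝ) ^ h := by
      have := Nat.cast_div_le (α := ℝ) (m := N) (n := m ^ h)
      simpa using this
    refine h5.trans ?_
    have h6 : (2 : ℝ) ^ h * (m : ℝ) ^ 2 ≤ 4 * (m : ℝ) ^ h := by
      obtain ⟨g, rfl⟩ : ∃ g, h = g + 2 := ⟨h - 2, by omega⟩
      rw [pow_add, pow_add]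
      have h7 : (2 : ℝ) ^ g ≤ (m : ℝ) ^ g := pow_le_pow_left₀ (by norm_num) hm2 g
      have h8 : (0 : ℝ) ≤ (m : ℝ) ^ 2 := by positivity
      nlinarith [mul_le_mul_of_nonneg_right h7 h8]
    have hmh : (0 : ℝ) < (m : ℝ) ^ h := by positivity
    have hmm : (0 : ℝ) < (m : ℝ) ^ 2 := by positivity
    have h2h : (0 : ℝ) < (2 : ℝ) ^ h := by positivity
    have h9 : 1 / (m : ℝ) ^ h ≤ (4 / 2 ^ h) * ((m : ℝ) ^ 2)⁻¹ := by
      rw [div_mul_eq_mul_div, le_div_iff₀ h2h, ← div_eq_mul_inv, le_div_iff₀ hmm, one_div,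
        inv_mul_eq_div, div_mul_eq_mul_div, div_le_iff₀ hmh]
      linarith
    have hN0 : (0 : ℝ) ≤ N := by positivity
    calc (N : ℝ) / (m : ℝ) ^ h = N * (1 / (m : ℝ) ^ h) := by ring
      _ ≤ N * ((4 / 2 ^ h) * ((m : ℝ) ^ 2)⁻¹) := mul_le_mul_of_nonneg_left h9 hN0
      _ = (N : ℝ) * (4 / 2 ^ h) * ((m : ℝ) ^ 2)⁻¹ := by ring
  rw [← Finset.mul_sum] at h3
  have h4 : ∑ i ∈ Finset.Ioc 1 N, ((i : ℝ) ^ 2)⁻¹ ≤ 1 := by
    have := sum_Ioc_inv_sq_le_sub (α := ℝ) (k := 1) (n := N) (by norm_num) hN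
    have h5 : (0 : ℝ) ≤ (N : ℝ)⁻¹ := by positivity
    simp at this
    linarith
  have h5 : (0 : ℝ) ≤ (N : ℝ) * (4 / 2 ^ h) := by positivity
  calc (((Finset.Ioc 0 N).filter (fun x => ∃ m : ℕ, 2 ≤ m ∧ m ^ h ∣ x)).card : ℝ)
      ≤ (N : ℝ) * (4 / 2 ^ h) * ∑ i ∈ Finset.Ioc 1 N, ((i : ℝ) ^ 2)⁻¹ := h3
    _ ≤ (N : ℝ) * (4 / 2 ^ h) * 1 := mul_le_mul_of_nonneg_left h4 h5
    _ = 4 / 2 ^ h * (N : ℝ) := by ring

theorem low (k N : ℕ) (hk : 5 ≤ k) (hN : 1 ≤ N) :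
    (1 / 2 - 4 / 2 ^ ((k - 1) / 2)) * (N : ℝ) ≤ (coverNumber k N : ℝ) := by
  classical
  have hne : {c : ℕ | ∃ F : Finset (Finset ℕ), (∀ S ∈ F, IsGP k S) ∧
    (∀ x, 1 ≤ x → x ≤ N → ∃ S ∈ F, x ∈ S) ∧ F.card = c}.Nonempty := by
    obtain ⟨F, h1, h2, h3⟩ := Pool.Agent.Helper15.GPCover.upper k N (by omega)
    refine ⟨F.card, F, fun S hS => ?_, h2, rfl⟩
    obtain ⟨a, ha, hS2⟩ := h1 S hS
    rw [hS2]
    exact isGP_two k a ha
  obtain ⟨F, h1, h2, h3⟩ := Nat.sInf_mem hne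
  have h4 : coverNumber k N = F.card := h3.symm
  rw [h4]
  have hch : ∀ x : ℕ, ∃ S : Finset ℕ, (N / 2 < x ∧ x ≤ N) → S ∈ F ∧ x ∈ S := by
    intro x
    by_cases hx : N / 2 < x ∧ x ≤ N
    · obtain ⟨S, hS, hxS⟩ := h2 x (by omega) hx.2
      exact ⟨S, fun _ => ⟨hS, hxS⟩⟩
    · exact ⟨∅, fun h => absurd h hx⟩
  choose g hg using hch
  have hinj : ((Finset.Ioc (N / 2) N).filter (fun x => ¬ ∃ m : ℕ, 2 ≤ m ∧ m ^ ((k - 1) / 2) ∣ x)).card ≤
      F.card := by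
    apply Finset.card_le_card_of_injOn g
    · intro x hx
      rw [Finset.mem_coe, Finset.mem_filter, Finset.mem_Ioc] at hx
      exact (hg x hx.1).1
    · intro x hx y hy hxy
      rw [Finset.mem_coe, Finset.mem_filter, Finset.mem_Ioc] at hx hy
      obtain ⟨hx', hxb⟩ := hx
      obtain ⟨hy', hyb⟩ := hy
      obtain ⟨hS, hxS⟩ := hg x hx'
      obtain ⟨-, hyS⟩ := hg y hy'
      rw [← hxy] at hyS
      obtain ⟨a, r, ha, hr, hint, hSe⟩ := h1 _ hS
      rw [hSe] at hxS hyS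
      obtain ⟨i, hik, hi⟩ := hxS
      obtain ⟨j, hjk, hj⟩ := hyS
      have hden : r.den = 1 := by
        by_contra hd
        exact hxb (div_of_nonint k a r hr (by omega) hint hd i hik x hi)
      have hr2 : 2 ≤ r := by
        have h5 : (r.num : ℚ) = r := Rat.coe_int_num_of_den_eq_one hden
        have h6 : (1 : ℚ) < (r.num : ℚ) := by rw [h5]; exact hr
        have h7 : (1 : ℤ) < r.num := by exact_mod_cast h6
        have h8 : (2 : ℤ) ≤ r.num := by omega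
        have h9 : (2 : ℚ) ≤ (r.num : ℚ) := by exact_mod_cast h8
        rw [h5] at h9
        exact h9
      have key : ∀ i j : ℕ, i < j → 2 * ((a : ℚ) * r ^ i) ≤ a * r ^ j := by
        intro i j hij
        have h5 : r ^ (i + 1) ≤ r ^ j := pow_le_pow_right₀ (by linarith) (by omega)
        have ha0 : (0 : ℚ) ≤ a := by positivity
        have h6 : (0 : ℚ) ≤ a * r ^ i := by positivity
        calc 2 * ((a : ℚ) * r ^ i) ≤ r * (a * r ^ i) := mul_le_mul_of_nonneg_right hr2 h6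
          _ = a * r ^ (i + 1) := by ring
          _ ≤ a * r ^ j := mul_le_mul_of_nonneg_left h5 ha0
      rcases lt_trichotomy i j with h | h | h
      · have h5 := key i j h
        rw [← hi, ← hj] at h5
        have h6 : 2 * x ≤ y := by exact_mod_cast h5
        omega
      · have : (x : ℚ) = y := by rw [hi, hj, h]
        exact_mod_cast this
      · have h5 := key j i h
        rw [← hi, ← hj] at h5
        have h6 : 2 * y ≤ x := by exact_mod_cast h5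
        omega
  have hsplit := Finset.card_filter_add_card_filter_not (s := Finset.Ioc (N / 2) N)
    (fun x => ∃ m : ℕ, 2 ≤ m ∧ m ^ ((k - 1) / 2) ∣ x)
  rw [Nat.card_Ioc] at hsplit
  have hsub : ((Finset.Ioc (N / 2) N).filter (fun x => ∃ m : ℕ, 2 ≤ m ∧ m ^ ((k - 1) / 2) ∣ x)).card ≤
      ((Finset.Ioc 0 N).filter (fun x => ∃ m : ℕ, 2 ≤ m ∧ m ^ ((k - 1) / 2) ∣ x)).card := by
    apply Finset.card_le_card
    apply Finset.filter_subset_filter
    intro x hx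
    rw [Finset.mem_Ioc] at hx ⊢
    omega
  have hrare := rare ((k - 1) / 2) N (by omega) hN
  have h5 : N ≤ 2 * (F.card + ((Finset.Ioc 0 N).filter
      (fun x => ∃ m : ℕ, 2 ≤ m ∧ m ^ ((k - 1) / 2) ∣ x)).card) := by omega
  have h6 : (N : ℝ) ≤ 2 * ((F.card : ℝ) + (((Finset.Ioc 0 N).filter
      (fun x => ∃ m : ℕ, 2 ≤ m ∧ m ^ ((k - 1) / 2) ∣ x)).card : ℝ)) := by exact_mod_cast h5
  linarith

/-- With rational ratios, both `lim_k liminf_N m_k(N)/N` and `lim_k limsup_N m_k(N)/N` equal `1/2`. -/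
theorem result : Tendsto lowerGamma atTop (nhds (1 / 2)) ∧ Tendsto upperGamma atTop (nhds (1 / 2)) := by
  apply Pool.Agent.Helper15.GPCover.limits coverNumber (fun k => 4 / 2 ^ ((k - 1) / 2)) _ 5
  · intro k hk N hN
    exact low k N hk hN
  · intro k hk N _
    have h1 := upp k N (by omega)
    have h2 : (1 : ℝ) / 2 ^ k ≤ 4 / 2 ^ ((k - 1) / 2) := by
      have h3 : (2 : ℝ) ^ ((k - 1) / 2) ≤ 2 ^ k := pow_le_pow_right₀ (by norm_num) (by omega)
      have h4 : (0 : ℝ) < 2 ^ ((k - 1) / 2) := by positivity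
      calc (1 : ℝ) / 2 ^ k ≤ 1 / 2 ^ ((k - 1) / 2) := one_div_le_one_div_of_le h4 h3
        _ ≤ 4 / 2 ^ ((k - 1) / 2) := div_le_div_of_nonneg_right (by norm_num) h4.le
    have h3 : (0 : ℝ) ≤ N := by positivity
    have h4 := mul_le_mul_of_nonneg_right h2 h3
    show (coverNumber k N : ℝ) ≤ (1 / 2 + 4 / 2 ^ ((k - 1) / 2)) * (N : ℝ) + 1
    linarith
  · have h1 : Tendsto (fun k : ℕ => (k - 1) / 2) atTop atTop := by
      apply tendsto_atTop_atTop.2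
      intro b
      exact ⟨2 * b + 1, fun a ha => by omega⟩
    have h2 := tendsto_pow_atTop_nhds_zero_of_lt_one (r := (1 / 2 : ℝ)) (by norm_num) (by norm_num)
    have h3 := (h2.comp h1).const_mul 4
    rw [mul_zero] at h3
    refine h3.congr (fun k => ?_)
    simp [div_eq_mul_inv]

end Pool.Agent.Results.MP_af7016_co.RationalRatio
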